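import Mathlib
import Pool.Agent.K3h2.AP.All

/-!
# Schneider's conjecture: almost all integral points on elliptic curves

A triple `v = (A, x, y)` of integers stands for the elliptic curve `E : y² = x³ + A x + B`,
`B = y² - x³ - A x`, with the integral point `P = (x, y)`. Every pair of an elliptic curve over `ℚ` and
a rational point different from the origin is isomorphic to such a pair.

For each `ε > 0` there is `m ≥ 1` such that for all but the proportion `ε` of **all** triples in a large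
box `|v l| ≤ H l`, `N ≤ H l ≤ N ^ c`:

1. `E` is an elliptic curve and `m P` reduces to a nonsingular point modulo every prime;
2. for every prime `p ≥ 5` of good ordinary reduction with `p⁵ N ^ δ ≤ N` and for every canonical
   `p`-adic height `h` of `E` the norm of `h (P)` is greater than `1 / (p⁵ N ^ δ)`; in particular
   `h (P) ≠ 0`;
3. if moreover the rank of `E` is one, then so is the norm of the `p`-adic regulator of `E`; in
   particular Schneider's conjecture holds for `E` and all these `p`.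
-/

set_option autoImplicit false

namespace Pool.Agent.Results.MP_3550b5_nt.AllIntegralPoints

open Finset Pool.Agent.Y732

/-- the curve `y² = x³ + A x + B` through the point `(x, y)`, `v = (A, x, y)`,
`B = y² - x³ - A x` -/
def curve (v : Fin 3 → ℤ) : WeierstrassCurve ℤ :=
  ⟨0, 0, 0, v 0, v 2 ^ 2 - v 1 ^ 3 - v 0 * v 1⟩

/-- the point `P = (x, y)` of the curve -/
noncomputable def point (v : Fin 3 → ℤ) : (WQ (curve v)).Point := pt (curve v) (v 1) (v 2) 1

/-- the point `m P` is `(a / e², b / e³)` in lowest terms and reduces to a nonsingular point modulo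
all primes -/
def Nonsing (m : ℕ) (v : Fin 3 → ℤ) : Prop :=
  ∃ a b e : ℤ, e ≠ 0 ∧ IsCoprime a e ∧ OnCurve (curve v) a b e ∧
    EverywhereNonsingular (curve v) a b e ∧ m • point v = pt (curve v) a b e

/-- For every canonical `p`-adic height of the curve the height of `P` has norm greater than
`1 / τ`, and if the rank of the group of rational points is one, then the norm of the `p`-adic
regulator of the curve (the regulator of a basis of the group of rational points modulo torsion) is
greater than `1 / τ`. -/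
def Large (p : ℕ) [Fact p.Prime] (τ : ℝ) (v : Fin 3 → ℤ) : Prop :=
  ∀ h : (WQ (curve v)).Point → ℚ_[p], IsHeightW p (curve v) h →
    1 < τ * ‖h (point v)‖ ∧
    (Module.finrank ℤ (WQ (curve v)).Point = 1 →
      ∀ (s : ℕ) (c : Fin s → (WQ (curve v)).Point), LinearIndependent ℤ c →
        (∀ P, ∃ P' : (WQ (curve v)).Point, (∃ n : ℤ, n ≠ 0 ∧ n • P' = 0) ∧
          P + P' ∈ Submodule.span ℤ (Set.range c)) → 1 < τ * ‖Reg h c‖)

/-- What holds for almost all integral points of the size `N`. -/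
def Good (m N : ℕ) (δ : ℝ) (v : Fin 3 → ℤ) : Prop :=
  (curve v).Δ ≠ 0 ∧ Nonsing m v ∧
    ∀ p : ℕ, ∀ _ : Fact p.Prime, 5 ≤ p → (p : ℝ) ^ 5 * (N : ℝ) ^ δ ≤ N →
      IsOrdinaryW p (curve v) → Large p ((p : ℝ) ^ 5 * (N : ℝ) ^ δ) v

lemma large_of {p : ℕ} [hp : Fact p.Prime] (hp5 : 5 ≤ p) {τ : ℝ} (hτ : 0 ≤ τ) {v : Fin 3 → ℤ}
    (ho : IsOrdinaryW p (curve v)) (hv : ¬ Pool.Agent.K3h2.AP.ExcR p τ v) : Large p τ v := by
  intro h hh
  have h1 : 1 < τ * ‖h (point v)‖ := by
    by_contra hcon
    exact hv ⟨ho, h, hh, not_lt.1 hcon⟩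
  refine ⟨h1, fun hrank s c hc hmax => ?_⟩
  obtain ⟨hq, -⟩ := hh
  have h0 : h 0 = 0 := by
    have := hq 0 0
    rw [add_zero, sub_zero] at this
    have h3 : (2 : ℚ_[p]) * h 0 = 0 := by linear_combination -this
    exact (mul_eq_zero.1 h3).resolve_left two_ne_zero
  have hreg : Reg h (fun _ : Fin 1 => point v) = 2 * h (point v) := by
    unfold Reg
    rw [Matrix.det_fin_one, Matrix.of_apply]
    have := hq (point v) (point v)
    rw [sub_self, h0] at this
    linear_combination this
  have h2 : ‖(2 : ℚ_[p])‖ = 1 := by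
    have h3 : ‖((2 : ℕ) : ℚ_[p])‖ = 1 := by
      rw [Padic.norm_natCast_eq_one_iff]
      exact (Nat.coprime_primes hp.out Nat.prime_two).2 (by omega)
    simpa using h3
  have hn : ‖Reg h (fun _ : Fin 1 => point v)‖ = ‖h (point v)‖ := by
    rw [hreg, norm_mul, h2, one_mul]
  have hne : Reg h (fun _ : Fin 1 => point v) ≠ 0 := by
    intro h3
    rw [h3, norm_zero] at hn
    rw [← hn, mul_zero] at h1
    linarith
  have h3 := Pool.Agent.R89.SR.Reg_norm_le hq one_pos hne hrank hc hmax
  rw [hn] at h3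
  exact h1.trans_le (mul_le_mul_of_nonneg_left h3 hτ)

open scoped Classical in
/-- **Main theorem.** -/
theorem result (ε : ℝ) (hε : 0 < ε) : ∃ m : ℕ, 1 ≤ m ∧ ∀ (c : ℕ) (δ : ℝ), 0 < δ →
    ∃ N₀ : ℕ, ∀ N : ℕ, N₀ ≤ N → ∀ H : Fin 3 → ℕ, (∀ l, N ≤ H l ∧ H l ≤ N ^ c) →
      (((Fintype.piFinset fun l => Icc (-(H l : ℤ)) (H l)).filter
        fun v => ¬ Good m N δ v).card : ℝ) ≤
        ε * (Fintype.piFinset fun l => Icc (-(H l : ℤ)) (H l)).card := by
  obtain ⟨m, hm, hmain⟩ := Pool.Agent.K3h2.AP.almost_all hε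
  refine ⟨m, hm, fun c δ hδ => ?_⟩
  obtain ⟨N₀, hN₀⟩ := hmain c hδ
  refine ⟨N₀, fun N hN H hH => ?_⟩
  refine le_trans ?_ (hN₀ N hN H hH)
  refine Nat.cast_le.2 (card_le_card fun v hv => ?_)
  rw [mem_filter] at hv
  rw [mem_filter]
  refine ⟨hv.1, ?_⟩
  by_contra hcon
  push Not at hcon
  obtain ⟨h1, h2, h3⟩ := hcon
  apply hv.2
  refine ⟨h1, ?_, ?_⟩
  · obtain ⟨d, hd⟩ := h2
    obtain ⟨a, b, e, hQ, -, he, hc, heq, hN, -, -, -, hmP⟩ := hd.mP
    refine ⟨a, b, e, he, hc, heq, hN, ?_⟩
    have h4 : pt (curve v) a b e = .some _ _ hQ := dif_pos hQ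
    rw [h4]
    exact hmP
  · intro p hp hp5 hpN ho
    apply large_of hp5 (by positivity) ho
    exact h3 p hp hp5 hpN

end Pool.Agent.Results.MP_3550b5_nt.AllIntegralPoints
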