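import Mathlib
import Pool.Agent.K3h2.SR.Dbl
import Pool.Agent.K3h2.SR.Cop

/-!
# Schneider's conjecture: the quadratic twists of an elliptic curve with a rational point

Let `E : y² = x³ + A x + B` be any elliptic curve over `ℚ` with integral `A`, `B`. For integers `a`,
`b` let `g = a³ + A a b² + B b³` and `D = b g = b⁴ f(a / b)`, `f = x³ + A x + B`. The quadratic twist
`E_D : y² = x³ + A D² x + B D³` (isomorphic to `D y² = f(x)`) has the rational point
`Q = (a g, g²)` (which is the point of `D y² = f(x)` with `x = a / b`); all quadratic twists of `E` with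
a point of infinite order are obtained in this way, up to isomorphism.

We consider the pairs `(a, b)` of coprime integers such that `2 (4 A³ + 27 B²) ∣ b`.

1. `2 Q` reduces to a nonsingular point modulo all primes.
2. For all but at most the proportion `16 p⁴ / T` of the pairs in any box with sides at least `T` for
   which `p ≥ 5` is a prime of good ordinary reduction of `E_D` the canonical `p`-adic height of `Q`
   has norm greater than `1 / T`, and if the rank of `E_D` is one, then so has the `p`-adic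
   regulator of `E_D`; in particular they do not vanish.
3. On the other hand the residue classes modulo `p` of good reduction contain positive proportions of
   such pairs. So in each residue class modulo `p` of good ordinary reduction, for almost all pairs
   (100 %) the height of `Q` is not zero, and Schneider's conjecture holds for `E_D` and `p` if the
   rank of `E_D` is one.
-/

set_option autoImplicit false

namespace Pool.Agent.Results.MP_3550b5_nt.QuadraticTwists

open Finset Pool.Agent.Y732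

/-- `g = a³ + A a b² + B b³` -/
def g (A B a b : ℤ) : ℤ := a ^ 3 + A * a * b ^ 2 + B * b ^ 3

/-- the quadratic twist `E_D : y² = x³ + A D² x + B D³` of `E : y² = x³ + A x + B`,
`D = b g = b⁴ f(a / b)` -/
def twist (A B a b : ℤ) : WeierstrassCurve ℤ :=
  ⟨0, 0, 0, A * (b * g A B a b) ^ 2, B * (b * g A B a b) ^ 3⟩

/-- `a` and `b` are coprime, `2 (4 A³ + 27 B²)` divides `b`, and `D ≠ 0`. -/
def Admissible (A B : ℤ) (v : Fin 2 → ℤ) : Prop :=
  IsCoprime (v 0) (v 1) ∧ 2 * (4 * A ^ 3 + 27 * B ^ 2) ∣ v 1 ∧ v 1 * g A B (v 0) (v 1) ≠ 0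

/-- For every canonical `p`-adic height of the twist `E_D` at `v = (a, b)`, the height of the point
`Q = (a g, g²)` has norm greater than `1 / T`, and if the rank of the group of rational points is one,
then the norm of the `p`-adic regulator of the curve (the regulator of a basis of the group of rational
points modulo torsion) is greater than `1 / T`. -/
def Large (p : ℕ) [Fact p.Prime] (T : ℕ) (A B : ℤ) (v : Fin 2 → ℤ) : Prop :=
  ∀ h : (WQ (twist A B (v 0) (v 1))).Point → ℚ_[p], IsHeightW p (twist A B (v 0) (v 1)) h →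
    1 < T * ‖h (pt (twist A B (v 0) (v 1)) (v 0 * g A B (v 0) (v 1)) (g A B (v 0) (v 1) ^ 2) 1)‖ ∧
    (Module.finrank ℤ (WQ (twist A B (v 0) (v 1))).Point = 1 →
      ∀ (s : ℕ) (c : Fin s → (WQ (twist A B (v 0) (v 1))).Point), LinearIndependent ℤ c →
        (∀ P, ∃ P' : (WQ (twist A B (v 0) (v 1))).Point, (∃ n : ℤ, n ≠ 0 ∧ n • P' = 0) ∧
          P + P' ∈ Submodule.span ℤ (Set.range c)) → 1 < T * ‖Reg h c‖)

/-- the statement for a general equation -/
def LargeW (p : ℕ) [Fact p.Prime] (T : ℕ) (W : WeierstrassCurve ℤ) (x y : ℤ) : Prop :=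
  ∀ h : (WQ W).Point → ℚ_[p], IsHeightW p W h →
    1 < T * ‖h (pt W x y 1)‖ ∧
    (Module.finrank ℤ (WQ W).Point = 1 →
      ∀ (s : ℕ) (c : Fin s → (WQ W).Point), LinearIndependent ℤ c →
        (∀ P, ∃ P' : (WQ W).Point, (∃ n : ℤ, n ≠ 0 ∧ n • P' = 0) ∧
          P + P' ∈ Submodule.span ℤ (Set.range c)) → 1 < T * ‖Reg h c‖)

lemma adm_iff {A B : ℤ} {v : Fin 2 → ℤ} :
    Admissible A B v ↔ Pool.Agent.K3h2.SR.Adm A B (v 0) (v 1) := Iff.rfl

/-- from the family to the twists -/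
lemma large_of {p : ℕ} [hp : Fact p.Prime] (hp5 : 5 ≤ p) {T : ℕ} {A B : ℤ} {v : Fin 2 → ℤ}
    (hAB : 4 * A ^ 3 + 27 * B ^ 2 ≠ 0) (hv : Admissible A B v)
    (h : Pool.Agent.R89.SR.Large (Pool.Agent.K3h2.SR.twistFamily A B) p T v) :
    Large p T A B v := by
  have hcurve := Pool.Agent.K3h2.SR.twistFamily_curve A B v
  have hdbl : pt ((Pool.Agent.K3h2.SR.twistFamily A B).curve v)
        (v 0 * g A B (v 0) (v 1)) (g A B (v 0) (v 1) ^ 2) 1 +
      pt ((Pool.Agent.K3h2.SR.twistFamily A B).curve v)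
        (v 0 * g A B (v 0) (v 1)) (g A B (v 0) (v 1) ^ 2) 1 =
      pt ((Pool.Agent.K3h2.SR.twistFamily A B).curve v)
        (Pool.Agent.K3h2.SR.Gf A B (v 0) (v 1)) (Pool.Agent.K3h2.SR.Hf A B (v 0) (v 1)) 2 := by
    rw [hcurve]
    exact Pool.Agent.K3h2.SR.dbl hAB hv.2.2
  have key : LargeW p T ((Pool.Agent.K3h2.SR.twistFamily A B).curve v)
      (v 0 * g A B (v 0) (v 1)) (g A B (v 0) (v 1) ^ 2) := by
    intro ht hht
    obtain ⟨h1, h2⟩ := h ht hht
    refine ⟨?_, h2⟩
    obtain ⟨hq, -⟩ := hht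
    have h0 : ht 0 = 0 := by
      have := hq 0 0
      rw [add_zero, sub_zero] at this
      have h3 : (2 : ℚ_[p]) * ht 0 = 0 := by linear_combination -this
      exact (mul_eq_zero.1 h3).resolve_left two_ne_zero
    have hd : ∀ P, ht (P + P) = 4 * ht P := by
      intro P
      have := hq P P
      rw [sub_self, h0] at this
      linear_combination this
    have hreg : Reg ht (fun i : Fin 1 => (Pool.Agent.K3h2.SR.twistFamily A B).P v 0 i.succ) =
        8 * ht (pt ((Pool.Agent.K3h2.SR.twistFamily A B).curve v)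
          (v 0 * g A B (v 0) (v 1)) (g A B (v 0) (v 1) ^ 2) 1) := by
      have hP := (Pool.Agent.K3h2.SR.twistFamily_P A B v 0 (0 : Fin 1).succ).trans hdbl.symm
      unfold Reg
      rw [Matrix.det_fin_one, Matrix.of_apply]
      beta_reduce
      rw [hP, hd, hd]
      ring
    rw [hreg, norm_mul] at h1
    have h8 : ‖(8 : ℚ_[p])‖ = 1 := by
      have h3 : ‖((8 : ℕ) : ℚ_[p])‖ = 1 := by
        rw [Padic.norm_natCast_eq_one_iff]
        have h4 : Nat.Coprime p 2 := (Nat.coprime_primes hp.out Nat.prime_two).2 (by omega)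
        exact Nat.Coprime.pow_right 3 h4
      simpa using h3
    rwa [h8, one_mul] at h1
  have key2 : LargeW p T (twist A B (v 0) (v 1)) (v 0 * g A B (v 0) (v 1))
      (g A B (v 0) (v 1) ^ 2) := by
    have h3 : twist A B (v 0) (v 1) = (Pool.Agent.K3h2.SR.twistFamily A B).curve v := by
      rw [hcurve]
      rfl
    rw [h3]
    exact key
  exact key2

open scoped Classical in
/-- **Main theorem.** -/
theorem result (A B : ℤ) (hAB : 4 * A ^ 3 + 27 * B ^ 2 ≠ 0) :
    -- (1) `2 Q` is `(G / 4, H / 8)` in lowest terms and nonsingular modulo all primes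
    (∀ v : Fin 2 → ℤ, Admissible A B v → ∃ G H : ℤ, IsCoprime G 2 ∧
      pt (twist A B (v 0) (v 1)) (v 0 * g A B (v 0) (v 1)) (g A B (v 0) (v 1) ^ 2) 1 +
        pt (twist A B (v 0) (v 1)) (v 0 * g A B (v 0) (v 1)) (g A B (v 0) (v 1) ^ 2) 1 =
        pt (twist A B (v 0) (v 1)) G H 2 ∧
      OnCurve (twist A B (v 0) (v 1)) G H 2 ∧
      EverywhereNonsingular (twist A B (v 0) (v 1)) G H 2) ∧
    -- (2) the exceptional pairs
    (∀ S : Finset ℕ, (∀ p ∈ S, p.Prime ∧ 5 ≤ p) → ∀ (c : Fin 2 → ℤ) (N : Fin 2 → ℕ) (T : ℕ),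
      (∀ l, T ≤ N l) →
        (((Fintype.piFinset fun l => Ico (c l) (c l + N l)).filter fun v => Admissible A B v ∧
          ∃ p ∈ S, ∃ _ : Fact p.Prime, IsOrdinaryW p (twist A B (v 0) (v 1)) ∧
            ¬ Large p T A B v).card : ℝ) * T ≤
          16 * (∑ p ∈ S, (p : ℝ) ^ 4) * (N 0 * N 1)) ∧
    -- (3) the admissible pairs in the residue classes
    (∀ p : ℕ, p.Prime → ¬ (p : ℤ) ∣ 2 * (4 * A ^ 3 + 27 * B ^ 2) → ∀ v₀ : Fin 2 → ℤ,
      ¬ (p : ℤ) ∣ (twist A B (v₀ 0) (v₀ 1)).Δ → ∀ (N : ℕ) (c : ℤ),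
      56 * ((2 * (4 * A ^ 3 + 27 * B ^ 2)).natAbs * p) ^ 2 ≤ N →
        N ^ 2 ≤ 4 * ((2 * (4 * A ^ 3 + 27 * B ^ 2)).natAbs * p) ^ 2 *
          ((Fintype.piFinset fun l => Ico ((![c, 1] : Fin 2 → ℤ) l)
            ((![c, 1] : Fin 2 → ℤ) l + N)).filter fun v =>
              (∀ l, v l ≡ v₀ l [ZMOD p]) ∧ Admissible A B v).card) := by
  refine ⟨?_, ?_, ?_⟩
  · intro v hv
    refine ⟨Pool.Agent.K3h2.SR.Gf A B (v 0) (v 1), Pool.Agent.K3h2.SR.Hf A B (v 0) (v 1),
      Pool.Agent.K3h2.SR.G_odd hv, Pool.Agent.K3h2.SR.dbl hAB hv.2.2, ?_,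
      Pool.Agent.K3h2.SR.adm_ns hv⟩
    have h1 := Pool.Agent.K3h2.SR.curve_id A B (v 0) (v 1)
    simp only [OnCurve, twist]
    unfold Pool.Agent.K3h2.SR.Df Pool.Agent.K3h2.SR.gf at h1
    unfold g
    linarith
  · intro S hS c N T hT
    have h1 := Pool.Agent.R89.SR.family_card_small (Pool.Agent.K3h2.SR.twistFamily A B) one_pos
      (by rw [Pool.Agent.K3h2.SR.twistFamily_K]; norm_num) S hS c N T T hT le_rfl
    rw [Pool.Agent.K3h2.SR.twistFamily_K, Nat.cast_one, div_one, Real.rpow_one,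
      Fin.prod_univ_two] at h1
    have h2 : (2 : ℝ) ^ 2 * 1 * |((4 : ℤ) : ℝ)| * (∑ p ∈ S, (p : ℝ) ^ 4) * (N 0 * N 1) =
        16 * (∑ p ∈ S, (p : ℝ) ^ 4) * (N 0 * N 1) := by
      norm_num
    rw [h2] at h1
    refine le_trans (mul_le_mul_of_nonneg_right ?_ (Nat.cast_nonneg T)) h1
    norm_cast
    refine card_le_card fun v hv => ?_
    rw [mem_filter] at hv ⊢
    obtain ⟨hb, hv1, p, hpS, hpf, ho, hL⟩ := hv
    refine ⟨hb, Pool.Agent.K3h2.SR.adm_marked hAB hv1, p, hpS, hpf, ?_, fun h => hL ?_⟩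
    · rw [Pool.Agent.K3h2.SR.twistFamily_curve]
      exact ho
    · exact large_of (hS p hpS).2 hAB hv1 h
  · intro p hp hpM v₀ hgood N c hN
    obtain ⟨M, hM⟩ : ∃ M : ℤ, M = 2 * (4 * A ^ 3 + 27 * B ^ 2) := ⟨_, rfl⟩
    obtain ⟨q, hq⟩ : ∃ q : ℕ, q = M.natAbs * p := ⟨_, rfl⟩
    rw [← hM] at hpM hN ⊢
    rw [← hq] at hN ⊢
    have hM0 : M ≠ 0 := by
      rw [hM]
      exact mul_ne_zero two_ne_zero hAB
    have hM0' : 0 < M.natAbs := Int.natAbs_pos.2 hM0
    have hq0 : 0 < q := by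
      rw [hq]
      exact Nat.mul_pos hM0' hp.pos
    have hq2 : 2 ∣ q := by
      rw [hq, hM, Int.natAbs_mul]
      exact ((Dvd.intro _ rfl : (2 : ℤ).natAbs ∣ _)).mul_right _
    have hpp := Nat.prime_iff_prime_int.1 hp
    obtain ⟨r, s, hrs⟩ : IsCoprime M (p : ℤ) := (hpp.coprime_iff_not_dvd.2 hpM).symm
    have hpD : ¬ (p : ℤ) ∣ v₀ 1 * g A B (v₀ 0) (v₀ 1) := by
      intro h
      apply hgood
      have e1 : (twist A B (v₀ 0) (v₀ 1)).Δ = -16 * (4 * A ^ 3 + 27 * B ^ 2) *
          (v₀ 1 * g A B (v₀ 0) (v₀ 1)) ^ 6 := Pool.Agent.K3h2.SR.twist_disc A B _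
      rw [e1]
      exact (dvd_pow h (by norm_num)).mul_left _
    set A₁ : ℤ := v₀ 0 * (r * M) + s * p with hA₁
    set y₁ : ℤ := v₀ 1 * (r * M) with hy₁
    have hA₁p : A₁ ≡ v₀ 0 [ZMOD p] := by
      refine Int.modEq_iff_dvd.2 ⟨v₀ 0 * s - s, ?_⟩
      rw [hA₁]
      linear_combination -(v₀ 0) * hrs
    have hy₁p : y₁ ≡ v₀ 1 [ZMOD p] := by
      refine Int.modEq_iff_dvd.2 ⟨v₀ 1 * s, ?_⟩
      rw [hy₁]
      linear_combination -(v₀ 1) * hrs
    have hgood' : ∀ ℓ : ℕ, ℓ.Prime → ℓ ∣ q → ¬ ((ℓ : ℤ) ∣ A₁ ∧ (ℓ : ℤ) ∣ y₁) := by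
      rintro ℓ hℓ hdvd ⟨k1, k2⟩
      have hlp := Nat.prime_iff_prime_int.1 hℓ
      rw [hq] at hdvd
      rcases (Nat.Prime.dvd_mul hℓ).1 hdvd with h3 | h3
      · have h4 : (ℓ : ℤ) ∣ M := Int.natCast_dvd.2 h3
        have h5 : (ℓ : ℤ) ∣ 1 := by
          have e1 : (1 : ℤ) = A₁ + M * (r - v₀ 0 * r) := by
            rw [hA₁]
            linear_combination -hrs
          rw [e1]
          exact dvd_add k1 (h4.mul_right _)
        exact hlp.not_isUnit (isUnit_of_dvd_one h5)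
      · have h4 := (Nat.prime_dvd_prime_iff_eq hℓ hp).1 h3
        subst h4
        apply hpD
        have h5 : (ℓ : ℤ) ∣ v₀ 1 := by
          have h6 := dvd_add hy₁p.dvd k2
          rwa [sub_add_cancel] at h6
        exact h5.mul_right _
    have h1 := Pool.Agent.K3h2.SR.cop_card c N q hq2 hq0 hN A₁ y₁ hgood'
    set F := ((Ico c (c + N)) ×ˢ (Ico (1 : ℤ) (1 + N))).filter
      (fun z : ℤ × ℤ => (z.1 ≡ A₁ [ZMOD q] ∧ z.2 ≡ y₁ [ZMOD q]) ∧ IsCoprime z.1 z.2) with hF
    have h2 : F.card ≤ ((Fintype.piFinset fun l => Ico ((![c, 1] : Fin 2 → ℤ) l)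
            ((![c, 1] : Fin 2 → ℤ) l + N)).filter fun v =>
              (∀ l, v l ≡ v₀ l [ZMOD p]) ∧ Admissible A B v).card := by
      apply card_le_card_of_injOn (fun z : ℤ × ℤ => (![z.1, z.2] : Fin 2 → ℤ))
      · rintro ⟨a, b⟩ hz
        rw [hF, mem_coe, mem_filter, mem_product] at hz
        obtain ⟨⟨ha, hb⟩, ⟨ha1, hb1⟩, hcop⟩ := hz
        simp only at ha hb ha1 hb1 hcop
        have hqp : (p : ℤ) ∣ (q : ℤ) := by
          rw [hq]
          push_cast
          exact Dvd.intro_left _ rfl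
        have hqM : M ∣ (q : ℤ) := by
          rw [hq]
          push_cast
          exact ((dvd_abs M M).2 dvd_rfl).mul_right _
        have ha2 : a ≡ v₀ 0 [ZMOD p] := (ha1.of_dvd hqp).trans hA₁p
        have hb2 : b ≡ v₀ 1 [ZMOD p] := (hb1.of_dvd hqp).trans hy₁p
        rw [mem_coe, mem_filter, Fintype.mem_piFinset]
        refine ⟨?_, ?_, hcop, ?_, ?_⟩
        · intro l
          fin_cases l
          · exact ha
          · exact hb
        · intro l
          fin_cases l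
          · exact ha2
          · exact hb2
        · change 2 * (4 * A ^ 3 + 27 * B ^ 2) ∣ b
          rw [← hM]
          have h3 : M ∣ y₁ := by
            rw [hy₁]
            exact (Dvd.intro_left _ rfl : M ∣ r * M).mul_left _
          have h4 := hqM.trans hb1.dvd
          have h5 := dvd_sub h3 h4
          rwa [sub_sub_cancel] at h5
        · change b * g A B a b ≠ 0
          intro h0
          apply hpD
          have h3 : b * g A B a b ≡ v₀ 1 * g A B (v₀ 0) (v₀ 1) [ZMOD p] := by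
            unfold g
            exact hb2.mul (((ha2.pow 3).add ((Int.ModEq.rfl.mul ha2).mul (hb2.pow 2))).add
              (Int.ModEq.rfl.mul (hb2.pow 3)))
          rw [h0] at h3
          have h4 := h3.dvd
          rwa [sub_zero] at h4
      · rintro ⟨a, b⟩ _ ⟨a', b'⟩ _ h
        have k0 : a = a' := congrFun h 0
        have k1 : b = b' := congrFun h 1
        rw [k0, k1]
    have hqQ : (0 : ℚ) < q := by exact_mod_cast hq0
    rw [div_le_iff₀ (by positivity)] at h1
    have h3 : (F.card : ℚ) ≤ _ := Nat.cast_le.2 h2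
    have h4 : (N : ℚ) ^ 2 ≤ 4 * q ^ 2 * (((Fintype.piFinset fun l => Ico ((![c, 1] : Fin 2 → ℤ) l)
            ((![c, 1] : Fin 2 → ℤ) l + N)).filter fun v =>
              (∀ l, v l ≡ v₀ l [ZMOD p]) ∧ Admissible A B v).card : ℚ) := by
      refine h1.trans ?_
      rw [mul_comm]
      exact mul_le_mul_of_nonneg_left h3 (by positivity)
    exact_mod_cast h4

end Pool.Agent.Results.MP_3550b5_nt.QuadraticTwists
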