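import Mathlib
import Pool.Agent.K3h13.RG.Uni6

/-!
# Schneider's conjecture: almost all elliptic curves over `ℚ` with five rational points

`curveA v : y² + s x y + a₃ y = x (x - m) (x - n)` is the family of the elliptic curves with the
integral points `P i j`, `0 ≤ i < j ≤ 4`, `P i j + P j k = P i k`, whose parameters
`v = (s, u, v, a, b, c)` run over all of `ℤ⁶`; `m`, `n`, `a₃` and the coordinates of the points are
forms of the degrees `2`, `2`, `3`, `2`, `3` in the parameters (see `Pool.Agent.K3h13.RG.Poly`).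
`curve v : y² = x³ + A x + B` is the short equation with `A = -27 c₄`, `B = -54 c₆` and
`point v i j` are the points `P i j` on it.

1. The elliptic curves `W` over `ℚ` with five different rational points `Q 0, …, Q 4` (up to
   isomorphisms and translations) are the members of this family: there is `v` such that a change of
   variables over `ℚ` identifies `W` with `curve v` and `Q j - Q i` with `point v i j` for all
   `i < j`, `v` can be chosen primitive, and then it is unique up to the sign. Conversely, all `v`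
   for which `curve v` is an elliptic curve occur.

2. For each `ε > 0` there is `m ≥ 1` such that for all but the proportion `ε` of the primitive
   `v ∈ ℤ⁶` with `|v l| ≤ N`, and also for all but the proportion `ε` of all these `v`:
   * `curve v` is an elliptic curve and the ten points `m P i j` reduce to nonsingular points modulo
     every prime;
   * for every prime `p ≥ 5` with `p²⁰ N ^ δ ≤ N` which divides neither the discriminant of `curve v`
     nor the trace of Frobenius (`IsOrdinaryW`: the equation is good ordinary at `p`) and for every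
     canonical `p`-adic height the norm of the regulator of the four points `P 0 1, …, P 0 4` is
     greater than `1 / (p²⁰ N ^ δ)`; in particular it is not zero and the four points are independent;
   * if moreover the rank of the curve is four, then so is the norm of the `p`-adic regulator of the
     curve; in particular Schneider's conjecture holds for the curve and all these `p`.
-/

set_option autoImplicit false

namespace Pool.Agent.Results.MP_3550b5_nt.RankFour

open Finset Pool.Agent.Y732 Pool.Agent.K3h13.RG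

/-- the curve `y² = x³ + A x + B`, `A = -27 c₄`, `B = -54 c₆` -/
def curve (v : Fin 6 → ℤ) : WeierstrassCurve ℤ :=
  ⟨0, 0, 0, -27 * (curveA v).c₄, -54 * (curveA v).c₆⟩

/-- the `x`-coordinate of the point `P i j`, `i < j`, of the curve -/
def px (v : Fin 6 → ℤ) (i j : Fin 5) : ℤ := 36 * xA v i j + 3 * (curveA v).b₂

/-- the `y`-coordinate of the point `P i j`, `i < j`, of the curve -/
def py (v : Fin 6 → ℤ) (i j : Fin 5) : ℤ := 108 * (2 * yA v i j + v 0 * xA v i j + pa3 v)

/-- the point `P i j`, `i < j`, of the curve -/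
noncomputable def point (v : Fin 6 → ℤ) (i j : Fin 5) : (WQ (curve v)).Point :=
  pt (curve v) (px v i j) (py v i j) 1

/-- the coordinates of `v` have no common prime factor -/
def Primitive (v : Fin 6 → ℤ) : Prop := ∀ ℓ : ℕ, ℓ.Prime → ¬ ∀ l, (ℓ : ℤ) ∣ v l

/-- A change of variables `(X, Y) ↦ (u² X + r, u³ Y + u² s X + t)` over `ℚ` identifies `curve v`
with `W` and the points `point v i j` with `Q j - Q i`, `i < j`. -/
def Represents (v : Fin 6 → ℤ) (W : WeierstrassCurve ℚ) (Q : Fin 5 → W.toAffine.Point) : Prop :=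
  ∃ C : WeierstrassCurve.VariableChange ℚ, C • W = (curve v).map (Int.castRingHom ℚ) ∧
    ∀ i j : Fin 5, i < j → ∃ h : W.toAffine.Nonsingular (C.u ^ 2 * (px v i j : ℚ) + C.r)
      (C.u ^ 3 * (py v i j : ℚ) + C.u ^ 2 * C.s * (px v i j : ℚ) + C.t),
      Q j - Q i = .some _ _ h

/-- the point `m P i j` is `(a / e², b / e³)` in lowest terms and reduces to a nonsingular point
modulo all primes -/
def Nonsing (m : ℕ) (v : Fin 6 → ℤ) (i j : Fin 5) : Prop :=
  ∃ a b e : ℤ, e ≠ 0 ∧ IsCoprime a e ∧ OnCurve (curve v) a b e ∧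
    EverywhereNonsingular (curve v) a b e ∧ m • point v i j = pt (curve v) a b e

/-- For every canonical `p`-adic height of the curve the regulator of `P 0 1, …, P 0 4` has norm
greater than `1 / τ`, and if the rank of the group of rational points is four, then the norm of the
`p`-adic regulator of the curve (the regulator of a basis of the group of rational points modulo
torsion) is greater than `1 / τ`. -/
def Large (p : ℕ) [Fact p.Prime] (τ : ℝ) (v : Fin 6 → ℤ) : Prop :=
  ∀ h : (WQ (curve v)).Point → ℚ_[p], IsHeightW p (curve v) h →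
    1 < τ * ‖Reg h ![point v 0 1, point v 0 2, point v 0 3, point v 0 4]‖ ∧
    (Module.finrank ℤ (WQ (curve v)).Point = 4 →
      ∀ (s : ℕ) (c : Fin s → (WQ (curve v)).Point), LinearIndependent ℤ c →
        (∀ P, ∃ P' : (WQ (curve v)).Point, (∃ n : ℤ, n ≠ 0 ∧ n • P' = 0) ∧
          P + P' ∈ Submodule.span ℤ (Set.range c)) → 1 < τ * ‖Reg h c‖)

/-- What holds for almost all parameters of the size `N`. -/
def Good (m N : ℕ) (δ : ℝ) (v : Fin 6 → ℤ) : Prop :=
  (curve v).Δ ≠ 0 ∧ (∀ i j k, i < j → j < k → point v i j + point v j k = point v i k) ∧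
    (∀ i j, i < j → Nonsing m v i j) ∧
    ∀ p : ℕ, ∀ _ : Fact p.Prime, 5 ≤ p → (p : ℝ) ^ 20 * (N : ℝ) ^ δ ≤ N →
      IsOrdinaryW p (curve v) → Large p ((p : ℝ) ^ 20 * (N : ℝ) ^ δ) v

lemma large_of {p : ℕ} [hp : Fact p.Prime] {τ : ℝ} (hτ : 0 ≤ τ) {v : Fin 6 → ℤ}
    (ho : IsOrdinaryW p (curve v)) (hv : ¬ ExcR6 p τ v) : Large p τ v := by
  intro h hh
  have hvec : ![point v 0 1, point v 0 2, point v 0 3, point v 0 4] =
      fun i : Fin 4 => sP v 0 i.succ := by
    funext i
    fin_cases i <;> rfl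
  rw [hvec]
  have h1 : 1 < τ * ‖Reg h (fun i : Fin 4 => sP v 0 i.succ)‖ := by
    by_contra hcon
    exact hv ⟨ho, h, hh, not_lt.1 hcon⟩
  refine ⟨h1, fun hrank s c hc hmax => ?_⟩
  obtain ⟨hq, -⟩ := hh
  have hne : Reg h (fun i : Fin 4 => sP v 0 i.succ) ≠ 0 := by
    intro h3
    rw [h3, norm_zero, mul_zero] at h1
    linarith
  have h3 := Pool.Agent.R89.SR.Reg_norm_le hq (by norm_num) hne hrank hc hmax
  exact h1.trans_le (mul_le_mul_of_nonneg_left h3 hτ)

open scoped Classical in
lemma all_parameters (ε : ℝ) (hε : 0 < ε) : ∃ m : ℕ, 1 ≤ m ∧ ∀ δ : ℝ, 0 < δ →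
    ∃ N₀ : ℕ, ∀ N : ℕ, N₀ ≤ N →
      (((Fintype.piFinset fun _ : Fin 6 => Icc (-(N : ℤ)) N).filter
        fun v => ¬ Good m N δ v).card : ℝ) ≤
        ε * (Fintype.piFinset fun _ : Fin 6 => Icc (-(N : ℤ)) N).card := by
  obtain ⟨m, hm, hmain⟩ := almost_all6 hε
  refine ⟨m, hm, fun δ hδ => ?_⟩
  obtain ⟨N₀, hN₀⟩ := hmain hδ
  refine ⟨N₀, fun N hN => ?_⟩
  refine le_trans ?_ (hN₀ N hN)
  refine Nat.cast_le.2 (card_le_card fun v hv => ?_)
  rw [mem_filter] at hv
  rw [mem_filter]
  refine ⟨hv.1, ?_⟩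
  by_contra hcon
  push Not at hcon
  obtain ⟨h1, h2, h3⟩ := hcon
  obtain ⟨d, hd⟩ := h2
  apply hv.2
  refine ⟨hd.1, fun i j k hij hjk => sP_add hd.1 hij hjk, ?_, ?_⟩
  · intro i j hij
    obtain ⟨a, b, e, hQ, -, he, hc, heq, hN, -, -, -, hmP⟩ := (hd.2 i j hij).mP
    refine ⟨a, b, e, he, hc, heq, hN, ?_⟩
    have h4 : pt (curve v) a b e = .some _ _ hQ := dif_pos hQ
    rw [h4]
    exact hmP
  · intro p hp hp5 hpN ho
    apply large_of (by positivity) ho
    exact h3 p hp hp5 hpN

open scoped Classical in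
/-- **Main theorem.** -/
theorem result :
    (∀ (W : WeierstrassCurve ℚ) (Q : Fin 5 → W.toAffine.Point), W.Δ ≠ 0 → Function.Injective Q →
      ∃ v, Primitive v ∧ (curve v).Δ ≠ 0 ∧ Represents v W Q ∧
        ∀ v', Primitive v' → Represents v' W Q → v' = v ∨ v' = -v) ∧
    (∀ v, (curve v).Δ ≠ 0 → ∃ (W : WeierstrassCurve ℚ) (Q : Fin 5 → W.toAffine.Point),
      W.Δ ≠ 0 ∧ Function.Injective Q ∧ Represents v W Q) ∧
    ∀ ε : ℝ, 0 < ε → ∃ m : ℕ, 1 ≤ m ∧ ∀ δ : ℝ, 0 < δ → ∃ N₀ : ℕ, ∀ N : ℕ, N₀ ≤ N →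
      ((((Fintype.piFinset fun _ : Fin 6 => Icc (-(N : ℤ)) N).filter
        fun v => Primitive v ∧ ¬ Good m N δ v).card : ℝ) ≤
        ε * ((Fintype.piFinset fun _ : Fin 6 => Icc (-(N : ℤ)) N).filter
          fun v => Primitive v).card) ∧
      (((Fintype.piFinset fun _ : Fin 6 => Icc (-(N : ℤ)) N).filter
        fun v => ¬ Good m N δ v).card : ℝ) ≤
        ε * (Fintype.piFinset fun _ : Fin 6 => Icc (-(N : ℤ)) N).card := by
  refine ⟨fun W Q hΔ hQ => moduli hΔ hQ, fun v hv => ?_, fun ε hε => ?_⟩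
  · obtain ⟨Q, hQ, h⟩ := rlz_self (v := v) hv
    refine ⟨(sW v).map (Int.castRingHom ℚ), Q, ?_, hQ, h⟩
    rw [WeierstrassCurve.map_Δ]
    have : (sW v).Δ ≠ 0 := hv
    simpa using this
  · obtain ⟨c, hc, N₁, hN₁⟩ := prim_count
    obtain ⟨m, hm, hmain⟩ := all_parameters (min ε (ε * c)) (by positivity)
    refine ⟨m, hm, fun δ hδ => ?_⟩
    obtain ⟨N₀, hN₀⟩ := hmain δ hδ
    refine ⟨max N₀ N₁, fun N hN => ?_⟩
    have h1 := hN₀ N ((le_max_left _ _).trans hN)
    have h2 := hN₁ N ((le_max_right _ _).trans hN)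
    have hcard : (0 : ℝ) ≤ ((Fintype.piFinset fun _ : Fin 6 => Icc (-(N : ℤ)) (N : ℤ)).card : ℝ) :=
      Nat.cast_nonneg _
    constructor
    · have h3 : (((Fintype.piFinset fun _ : Fin 6 => Icc (-(N : ℤ)) N).filter
          fun v => Primitive v ∧ ¬ Good m N δ v).card : ℝ) ≤
          (((Fintype.piFinset fun _ : Fin 6 => Icc (-(N : ℤ)) N).filter
            fun v => ¬ Good m N δ v).card : ℝ) := by
        refine Nat.cast_le.2 (card_le_card fun v hv => ?_)
        rw [mem_filter] at hv ⊢
        exact ⟨hv.1, hv.2.2⟩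
      refine h3.trans (h1.trans ?_)
      calc min ε (ε * c) * ((Fintype.piFinset fun _ : Fin 6 => Icc (-(N : ℤ)) (N : ℤ)).card : ℝ)
          ≤ ε * c * ((Fintype.piFinset fun _ : Fin 6 => Icc (-(N : ℤ)) (N : ℤ)).card : ℝ) :=
            mul_le_mul_of_nonneg_right (min_le_right _ _) hcard
        _ = ε * (c * ((Fintype.piFinset fun _ : Fin 6 => Icc (-(N : ℤ)) (N : ℤ)).card : ℝ)) := by
            ring
        _ ≤ _ := mul_le_mul_of_nonneg_left h2 hε.le
    · exact h1.trans (mul_le_mul_of_nonneg_right (min_le_left _ _) hcard)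

end Pool.Agent.Results.MP_3550b5_nt.RankFour
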