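import Pool.Agent.Results.MP_3550b5_nt.SmallRegulators
import Pool.Agent.R482.ST.Vec

/-!
# `p`-adic regulators at ALL marked parameters near powers, orbits and other sequences

A `Family d r` (see `Pool.Agent.Y732.Defs3`) is a Weierstrass equation over `ℤ[t₁, …, t_d]` with
`r` sections `P 0 1, …, P 0 r`, all homogeneous for some weights of the parameters, and `F.K` is
the height pairing of the sections over the function field. `Large F p T v` says that at the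
parameter `v ∈ ℤ^d`, for the canonical `p`-adic height, the `p`-adic regulator of the `r` points
has norm greater than `1 / T`, and if the rank of the group of rational points is `r`, then so has
the `p`-adic regulator of the curve; in particular it is not zero (Schneider's conjecture).

Let `f_k`, `k = 0, 1, 2, …`, be positive functions on `(a, ∞)`, `a ≥ 0`, such that `f_k(t) / t` is
nondecreasing and such that the sequence `f_k(t)` has exponent of convergence at most `τ` for each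
`t > a`: for instance `f_k(t) = t ^ (v_k)` for exponents `v_k ≥ 1` growing faster than `log k`
(`τ = 0`; all powers, the powers `t ^ (3 ^ k)`, …), the orbits
`f_k(t) = g (g (⋯ g (t)))` of a map `g` with `g(t) > t` and `g(t) / t` nondecreasing (`τ = 0`; for
instance of `t² + c`), and `f_k(t) = b ^ k t`, `k ^ (1 / τ) t`.

If `F.K` is nondegenerate and `0 ≤ ρ ≤ 1`, `κ ≥ 0`, `θ < 1`, then for all vectors `u ∈ ℝ^d`,
`‖u‖ > a`, outside a set of Hausdorff dimension at most `(d - ρ / r + 5 κ + τ) / (1 - θ)`, each `c`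
and all but finitely many `k`, for ALL marked integral vectors `z` at distance at most
`c f_k(‖u‖) ^ θ` from the vector `(f_k(‖u‖) / ‖u‖) u` and ALL primes `5 ≤ p ≤ f_k(‖u‖) ^ κ` which are
ordinary for the curve at `z`, the `p`-adic regulators have norm greater than `1 / ‖z‖ ^ ρ`. The
dimension is smaller than `d`, so that almost all vectors `u` are admitted, if
`d θ + 5 κ + τ < ρ / r`.

The proof counts the exceptional vectors of a dyadic shell with the theorem of `SmallRegulators`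
and uses `Pool.Agent.R482.ST.vec_prop` for their neighbourhoods.
-/

set_option autoImplicit false

namespace Pool.Agent.Results.MP_3550b5_nt.StarshapedRegulators

open Pool.Agent.Y732 Pool.Agent.R89.SR Pool.Agent.R482.ST

/-- the maximum of the absolute values of the coordinates -/
noncomputable def height {d : ℕ} (z : Fin d → ℤ) : ℝ := ‖(fun i => (z i : ℝ) : Fin d → ℝ)‖

lemma abs_le_height {d : ℕ} (z : Fin d → ℤ) (i : Fin d) : |(z i : ℝ)| ≤ height z := by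
  have h := norm_le_pi_norm (fun i => (z i : ℝ) : Fin d → ℝ) i
  rwa [Real.norm_eq_abs] at h

lemma height_nonneg {d : ℕ} (z : Fin d → ℤ) : 0 ≤ height z := norm_nonneg _

lemma height_le {d : ℕ} {z : Fin d → ℤ} {X : ℝ} (hX : 0 ≤ X) (h : ∀ i, |(z i : ℝ)| ≤ X) :
    height z ≤ X := by
  unfold height
  rw [pi_norm_le_iff_of_nonneg hX]
  intro i
  rw [Real.norm_eq_abs]
  exact h i

/-- a nonzero vector has height at least one -/
lemma one_le_height {d : ℕ} {z : Fin d → ℤ} (hz : z ≠ 0) : 1 ≤ height z := by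
  obtain ⟨i, hi⟩ := Function.ne_iff.1 hz
  have h1 : (1 : ℝ) ≤ |(z i : ℝ)| := by
    have h2 : 1 ≤ |z i| := Int.one_le_abs (by simpa using hi)
    exact_mod_cast h2
  exact h1.trans (abs_le_height z i)

lemma Large.mono {d r : ℕ} {F : Family d r} {p : ℕ} [Fact p.Prime] {T T' : ℕ} {v : Fin d → ℤ}
    (h : Large F p T v) (hT : T ≤ T') : Large F p T' v := by
  intro g hg
  obtain ⟨h1, h2⟩ := h g hg
  have hTT : (T : ℝ) ≤ T' := by exact_mod_cast hT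
  refine ⟨lt_of_lt_of_le h1 (mul_le_mul_of_nonneg_right hTT (norm_nonneg _)), ?_⟩
  intro hrk s c hc hs
  exact lt_of_lt_of_le (h2 hrk s c hc hs) (mul_le_mul_of_nonneg_right hTT (norm_nonneg _))

/-- the exceptional vectors: marked, and the `p`-adic regulator is small for one of the ordinary
primes `5 ≤ p ≤ X ^ κ` -/
def Bad {d r : ℕ} (F : Family d r) (ρ κ : ℝ) (z : Fin d → ℤ) (X : ℝ) : Prop :=
  0 ≤ X ∧ F.Marked z ∧ ∃ (p : ℕ) (_ : Fact p.Prime), 5 ≤ p ∧ (p : ℝ) ≤ X ^ κ ∧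
    IsOrdinaryW p (F.curve z) ∧ ¬ Large F p ⌊height z ^ ρ⌋₊ z

open scoped Classical in
/-- the exceptional vectors of a dyadic shell -/
lemma shell_card {d r : ℕ} (F : Family d r) (hr : 0 < r) (hK : F.K.det ≠ 0) {ρ κ : ℝ}
    (hρ : 0 ≤ ρ) (hρ1 : ρ ≤ 1) (H : ℕ) (hH : 1 ≤ H) (j : ℕ) (S : Set (Fin d → ℤ))
    (hS : ∀ z ∈ S, (2 : ℝ) ^ j ≤ height z ∧ height z ≤ 2 ^ (j + 1) ∧ Bad F ρ κ z H) :
    S.Finite ∧ (S.ncard : ℝ) ≤ 2 * (2 ^ d * r * |(F.K.det : ℝ)| * 5 ^ d) * (H : ℝ) ^ (5 * κ) *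
      ((2 : ℝ) ^ j) ^ ((d : ℝ) - ρ / r) := by
  have hr0 : (0 : ℝ) < r := by exact_mod_cast hr
  have hr1 : (1 : ℝ) ≤ r := by exact_mod_cast hr
  have hm1 : (1 : ℝ) ≤ H := by exact_mod_cast hH
  have hm0 : (0 : ℝ) < H := by linarith
  have hb1 : (1 : ℝ) ≤ 2 ^ j := one_le_pow₀ (by norm_num)
  have hb0 : (0 : ℝ) < 2 ^ j := by linarith
  set P : Finset ℕ := (Finset.range (⌊(H : ℝ) ^ κ⌋₊ + 1)).filter
    (fun p => p.Prime ∧ 5 ≤ p) with hP
  have hPp : ∀ p ∈ P, p.Prime ∧ 5 ≤ p := fun p hp => (Finset.mem_filter.1 hp).2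
  have hbρ : ((2 : ℝ) ^ j) ^ ρ ≤ 2 ^ j := by
    calc ((2 : ℝ) ^ j) ^ ρ ≤ ((2 : ℝ) ^ j) ^ (1 : ℝ) :=
          Real.rpow_le_rpow_of_exponent_le hb1 hρ1
      _ = 2 ^ j := Real.rpow_one _
  have hT : ∀ l : Fin d, ⌊((2 : ℝ) ^ j) ^ ρ⌋₊ ≤ (fun _ : Fin d => 2 * 2 ^ (j + 1) + 1) l := by
    intro l
    have h1 : ⌊((2 : ℝ) ^ j) ^ ρ⌋₊ ≤ 2 ^ j := by
      apply Nat.floor_le_of_le
      push_cast
      exact hbρ
    have h2 : 2 ^ (j + 1) = 2 * 2 ^ j := by rw [pow_succ]; ring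
    show ⌊((2 : ℝ) ^ j) ^ ρ⌋₊ ≤ 2 * 2 ^ (j + 1) + 1
    omega
  have hcard := SmallRegulators.result.1 d r F hr hK P hPp
    (fun _ => -((2 ^ (j + 1) : ℕ) : ℤ)) (fun _ => 2 * 2 ^ (j + 1) + 1)
    ⌊((2 : ℝ) ^ j) ^ ρ⌋₊ hT
  set E := (Fintype.piFinset fun l : Fin d => Finset.Ico (-((2 ^ (j + 1) : ℕ) : ℤ))
      (-((2 ^ (j + 1) : ℕ) : ℤ) + ((2 * 2 ^ (j + 1) + 1 : ℕ) : ℤ))).filter
      fun v => F.Marked v ∧ ∃ p ∈ P, ∃ _ : Fact p.Prime,
        IsOrdinaryW p (F.curve v) ∧ ¬ Large F p ⌊((2 : ℝ) ^ j) ^ ρ⌋₊ v with hE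
  have hsub : S ⊆ (E : Set (Fin d → ℤ)) := by
    intro v hv
    obtain ⟨e1, e2, -, e4, p, hp, e5, e6, e7, e8⟩ := hS v hv
    rw [Finset.mem_coe, hE, Finset.mem_filter, Fintype.mem_piFinset]
    refine ⟨fun l => ?_, e4, p, ?_, hp, e7, fun hL => e8 (Large.mono hL ?_)⟩
    · have h1 := (abs_le_height v l).trans e2
      have h2 : |v l| ≤ ((2 ^ (j + 1) : ℕ) : ℤ) := by
        have : ((|v l| : ℤ) : ℝ) ≤ (((2 ^ (j + 1) : ℕ) : ℤ) : ℝ) := by
          push_cast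
          exact h1
        exact_mod_cast this
      rw [abs_le] at h2
      rw [Finset.mem_Ico]
      push_cast at h2 ⊢
      constructor <;> linarith [h2.1, h2.2]
    · rw [hP, Finset.mem_filter, Finset.mem_range]
      exact ⟨Nat.lt_succ_of_le (Nat.le_floor e6), hp.out, e5⟩
    · exact Nat.floor_le_floor (Real.rpow_le_rpow hb0.le e1 hρ)
  have hfinS : S.Finite := E.finite_toSet.subset hsub
  refine ⟨hfinS, ?_⟩
  have hle := Set.ncard_le_ncard hsub E.finite_toSet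
  rw [Set.ncard_coe_finset] at hle
  -- the sum over the primes
  have hsumP : (∑ p ∈ P, (p : ℝ) ^ 4) ≤ (H : ℝ) ^ (5 * κ) := by
    have hκ0 : (0 : ℝ) ≤ (H : ℝ) ^ κ := by positivity
    have hPc : (P.card : ℝ) ≤ (H : ℝ) ^ κ := by
      have e1 : P ⊆ Finset.Icc 1 ⌊(H : ℝ) ^ κ⌋₊ := by
        intro p hp
        rw [hP, Finset.mem_filter, Finset.mem_range] at hp
        rw [Finset.mem_Icc]
        omega
      have e2 := Finset.card_le_card e1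
      rw [Nat.card_Icc, Nat.add_sub_cancel] at e2
      exact le_trans (by exact_mod_cast e2) (Nat.floor_le hκ0)
    calc ∑ p ∈ P, (p : ℝ) ^ 4 ≤ ∑ _p ∈ P, ((H : ℝ) ^ κ) ^ 4 := by
          apply Finset.sum_le_sum
          intro p hp
          rw [hP, Finset.mem_filter, Finset.mem_range] at hp
          have e3 : (p : ℝ) ≤ (H : ℝ) ^ κ :=
            le_trans (by exact_mod_cast Nat.lt_succ_iff.1 hp.1) (Nat.floor_le hκ0)
          gcongr
      _ = P.card * ((H : ℝ) ^ κ) ^ 4 := by rw [Finset.sum_const, nsmul_eq_mul]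
      _ ≤ (H : ℝ) ^ κ * ((H : ℝ) ^ κ) ^ 4 := by gcongr
      _ = (H : ℝ) ^ (5 * κ) := by
          rw [← pow_succ', ← Real.rpow_natCast, ← Real.rpow_mul hm0.le]
          norm_num [mul_comm]
  -- the lower bound for `T ^ (1 / r)`
  have hlow : ((2 : ℝ) ^ j) ^ (ρ / r) / 2 ≤
      ((⌊((2 : ℝ) ^ j) ^ ρ⌋₊ : ℕ) : ℝ) ^ ((1 : ℝ) / r) := by
    have e0 : (1 : ℝ) ≤ ((2 : ℝ) ^ j) ^ ρ := Real.one_le_rpow hb1 hρ
    have e1 := Nat.lt_floor_add_one (((2 : ℝ) ^ j) ^ ρ)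
    have e2 : (1 : ℝ) ≤ ((⌊((2 : ℝ) ^ j) ^ ρ⌋₊ : ℕ) : ℝ) := by
      exact_mod_cast Nat.le_floor (by exact_mod_cast e0)
    have e3 : ((2 : ℝ) ^ j) ^ ρ / 2 ≤ ((⌊((2 : ℝ) ^ j) ^ ρ⌋₊ : ℕ) : ℝ) := by linarith
    calc ((2 : ℝ) ^ j) ^ (ρ / r) / 2 = ((2 : ℝ) ^ j) ^ (ρ / r) * (1 / 2) := by ring
      _ ≤ ((2 : ℝ) ^ j) ^ (ρ / r) * (1 / 2) ^ ((1 : ℝ) / r) := by
          apply mul_le_mul_of_nonneg_left _ (by positivity)
          calc (1 / 2 : ℝ) = (1 / 2) ^ (1 : ℝ) := by rw [Real.rpow_one]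
            _ ≤ (1 / 2) ^ ((1 : ℝ) / r) := by
                apply Real.rpow_le_rpow_of_exponent_ge (by norm_num) (by norm_num)
                rw [div_le_one hr0]
                exact hr1
      _ = (((2 : ℝ) ^ j) ^ ρ / 2) ^ ((1 : ℝ) / r) := by
          rw [div_eq_mul_one_div (((2 : ℝ) ^ j) ^ ρ), Real.mul_rpow (by positivity) (by norm_num),
            ← Real.rpow_mul hb0.le, mul_one_div]
      _ ≤ ((⌊((2 : ℝ) ^ j) ^ ρ⌋₊ : ℕ) : ℝ) ^ ((1 : ℝ) / r) :=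
          Real.rpow_le_rpow (by positivity) e3 (by positivity)
  -- the sides
  have hprod : (∏ l : Fin d, (((fun _ : Fin d => 2 * 2 ^ (j + 1) + 1) l : ℕ) : ℝ)) ≤
      5 ^ d * ((2 : ℝ) ^ j) ^ (d : ℝ) := by
    rw [Finset.prod_const, Finset.card_univ, Fintype.card_fin, Real.rpow_natCast, ← mul_pow]
    apply pow_le_pow_left₀ (by positivity)
    push_cast
    rw [pow_succ]
    linarith
  have hfin : (E.card : ℝ) * (((2 : ℝ) ^ j) ^ (ρ / r) / 2) ≤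
      2 ^ d * r * |(F.K.det : ℝ)| * 5 ^ d * (H : ℝ) ^ (5 * κ) * ((2 : ℝ) ^ j) ^ (d : ℝ) := by
    calc (E.card : ℝ) * (((2 : ℝ) ^ j) ^ (ρ / r) / 2)
        ≤ (E.card : ℝ) * ((⌊((2 : ℝ) ^ j) ^ ρ⌋₊ : ℕ) : ℝ) ^ ((1 : ℝ) / r) := by gcongr
      _ ≤ 2 ^ d * r * |(F.K.det : ℝ)| * (∑ p ∈ P, (p : ℝ) ^ 4) *
            ∏ l : Fin d, (((fun _ : Fin d => 2 * 2 ^ (j + 1) + 1) l : ℕ) : ℝ) := hcard
      _ ≤ 2 ^ d * r * |(F.K.det : ℝ)| * (H : ℝ) ^ (5 * κ) *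
            (5 ^ d * ((2 : ℝ) ^ j) ^ (d : ℝ)) := by
          gcongr
      _ = 2 ^ d * r * |(F.K.det : ℝ)| * 5 ^ d * (H : ℝ) ^ (5 * κ) *
            ((2 : ℝ) ^ j) ^ (d : ℝ) := by ring
  have hpos : (0 : ℝ) < ((2 : ℝ) ^ j) ^ (ρ / r) := by positivity
  calc (S.ncard : ℝ) ≤ (E.card : ℝ) := by exact_mod_cast hle
    _ = 2 * ((E.card : ℝ) * (((2 : ℝ) ^ j) ^ (ρ / r) / 2)) * ((2 : ℝ) ^ j) ^ (-(ρ / r)) := by
        rw [Real.rpow_neg hb0.le]
        field_simp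
    _ ≤ 2 * (2 ^ d * r * |(F.K.det : ℝ)| * 5 ^ d * (H : ℝ) ^ (5 * κ) *
          ((2 : ℝ) ^ j) ^ (d : ℝ)) * ((2 : ℝ) ^ j) ^ (-(ρ / r)) := by gcongr
    _ = 2 * (2 ^ d * r * |(F.K.det : ℝ)| * 5 ^ d) * (H : ℝ) ^ (5 * κ) *
          (((2 : ℝ) ^ j) ^ (d : ℝ) * ((2 : ℝ) ^ j) ^ (-(ρ / r))) := by ring
    _ = 2 * (2 ^ d * r * |(F.K.det : ℝ)| * 5 ^ d) * (H : ℝ) ^ (5 * κ) *
          ((2 : ℝ) ^ j) ^ ((d : ℝ) - ρ / r) := by
        rw [← Real.rpow_add hb0, sub_eq_add_neg]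

open scoped Classical in
/-- the number of exceptional vectors of height at most `H` -/
lemma bad_card {d r : ℕ} (F : Family d r) (hd : 0 < d) (hr : 0 < r) (hK : F.K.det ≠ 0) {ρ κ : ℝ}
    (hρ : 0 ≤ ρ) (hρ1 : ρ ≤ 1) (hκ : 0 ≤ κ) (ε : ℝ) (hε : 0 < ε) :
    ∃ C : ℝ, ∀ H : ℕ, 1 ≤ H →
      ({z : Fin d → ℤ | (∀ i, |z i| ≤ (H : ℤ)) ∧ Bad F ρ κ z H}.ncard : ℝ) ≤
        C * (H : ℝ) ^ ((d : ℝ) - ρ / r + 5 * κ + ε) := by
  set A : ℝ := 2 * (2 ^ d * r * |(F.K.det : ℝ)| * 5 ^ d) with hA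
  have hA0 : 0 ≤ A := by positivity
  have hr0 : (0 : ℝ) < r := by exact_mod_cast hr
  have hr1 : (1 : ℝ) ≤ r := by exact_mod_cast hr
  have hd1 : (1 : ℝ) ≤ d := by exact_mod_cast hd
  have he0 : 0 ≤ (d : ℝ) - ρ / r := by
    have : ρ / r ≤ 1 := (div_le_one hr0).2 (hρ1.trans hr1)
    linarith
  refine ⟨1 + A * (1 + 1 / (ε * Real.log 2)), fun H hH => ?_⟩
  have hm1 : (1 : ℝ) ≤ H := by exact_mod_cast hH
  have hm0 : (0 : ℝ) < H := by linarith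
  set sh : ℕ → Set (Fin d → ℤ) := fun j =>
    {z | (2 : ℝ) ^ j ≤ height z ∧ height z ≤ 2 ^ (j + 1) ∧ Bad F ρ κ z H} with hsh
  have hcard : ∀ j, (sh j).Finite ∧ ((sh j).ncard : ℝ) ≤
      A * (H : ℝ) ^ (5 * κ) * ((2 : ℝ) ^ j) ^ ((d : ℝ) - ρ / r) := fun j =>
    shell_card F hr hK hρ hρ1 H hH j (sh j) fun z hz => hz
  set J := Nat.log 2 H + 1 with hJ
  have hcov : {z : Fin d → ℤ | (∀ i, |z i| ≤ (H : ℤ)) ∧ Bad F ρ κ z H} ⊆
      {0} ∪ ⋃ j ∈ Finset.range J, sh j := by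
    rintro z ⟨hz1, hz2⟩
    by_cases hz0 : z = 0
    · left
      exact hz0
    right
    have h1 := one_le_height hz0
    have h2 : height z ≤ H := height_le hm0.le fun i => by
      have := hz1 i
      exact_mod_cast this
    obtain ⟨j, hj1, hj2⟩ := exists_nat_pow_near h1 (by norm_num : (1 : ℝ) < 2)
    rw [Set.mem_iUnion₂]
    refine ⟨j, ?_, hj1, hj2.le, hz2⟩
    rw [Finset.mem_range, hJ, Nat.lt_succ_iff]
    apply (Nat.le_log_iff_pow_le (by norm_num) (by omega)).2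
    have : (2 : ℝ) ^ j ≤ H := hj1.trans h2
    exact_mod_cast this
  have hfin : ({0} ∪ ⋃ j ∈ Finset.range J, sh j : Set (Fin d → ℤ)).Finite :=
    (Set.finite_singleton _).union
      (Set.Finite.biUnion (Finset.finite_toSet _) fun j _ => (hcard j).1)
  have hone : ∀ j ∈ Finset.range J, ((sh j).ncard : ℝ) ≤
      A * (H : ℝ) ^ ((d : ℝ) - ρ / r + 5 * κ) := by
    intro j hj
    refine (hcard j).2.trans ?_
    have h1 : (2 : ℝ) ^ j ≤ H := by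
      rw [Finset.mem_range, hJ, Nat.lt_succ_iff] at hj
      have := (Nat.le_log_iff_pow_le (by norm_num) (by omega)).1 hj
      exact_mod_cast this
    rw [Real.rpow_add hm0]
    calc A * (H : ℝ) ^ (5 * κ) * ((2 : ℝ) ^ j) ^ ((d : ℝ) - ρ / r)
        ≤ A * (H : ℝ) ^ (5 * κ) * (H : ℝ) ^ ((d : ℝ) - ρ / r) := by
          apply mul_le_mul_of_nonneg_left _ (by positivity)
          exact Real.rpow_le_rpow (by positivity) h1 he0
      _ = A * ((H : ℝ) ^ ((d : ℝ) - ρ / r) * (H : ℝ) ^ (5 * κ)) := by ring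
  have hJb : (J : ℝ) ≤ (1 + 1 / (ε * Real.log 2)) * (H : ℝ) ^ ε := by
    have hl2 : 0 < Real.log 2 := Real.log_pos (by norm_num)
    have h1 : ((Nat.log 2 H : ℕ) : ℝ) * Real.log 2 ≤ Real.log H := by
      rw [← Real.log_pow]
      apply Real.log_le_log (by positivity)
      have := Nat.pow_log_le_self 2 (show H ≠ 0 by omega)
      exact_mod_cast this
    have h2 : Real.log H ≤ (H : ℝ) ^ ε / ε := Real.log_le_rpow_div hm0.le hε
    have h3 : (1 : ℝ) ≤ (H : ℝ) ^ ε := Real.one_le_rpow hm1 hε.le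
    have h4 : ((Nat.log 2 H : ℕ) : ℝ) ≤ 1 / (ε * Real.log 2) * (H : ℝ) ^ ε := by
      calc ((Nat.log 2 H : ℕ) : ℝ) = ((Nat.log 2 H : ℕ) : ℝ) * Real.log 2 / Real.log 2 := by
            field_simp
        _ ≤ ((H : ℝ) ^ ε / ε) / Real.log 2 := by gcongr; exact h1.trans h2
        _ = 1 / (ε * Real.log 2) * (H : ℝ) ^ ε := by field_simp
    rw [hJ]
    push_cast
    linarith
  have hpow1 : (1 : ℝ) ≤ (H : ℝ) ^ ((d : ℝ) - ρ / r + 5 * κ + ε) :=
    Real.one_le_rpow hm1 (by positivity)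
  calc ({z : Fin d → ℤ | (∀ i, |z i| ≤ (H : ℤ)) ∧ Bad F ρ κ z H}.ncard : ℝ)
      ≤ (({0} ∪ ⋃ j ∈ Finset.range J, sh j : Set (Fin d → ℤ)).ncard : ℝ) := by
        exact_mod_cast Set.ncard_le_ncard hcov hfin
    _ ≤ 1 + ∑ j ∈ Finset.range J, ((sh j).ncard : ℝ) := by
        have h1 := Set.ncard_union_le ({0} : Set (Fin d → ℤ)) (⋃ j ∈ Finset.range J, sh j)
        have h2 := Finset.set_ncard_biUnion_le (Finset.range J) sh
        rw [Set.ncard_singleton] at h1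
        have h3 := h1.trans (Nat.add_le_add_left h2 1)
        exact_mod_cast h3
    _ ≤ 1 + ∑ j ∈ Finset.range J, A * (H : ℝ) ^ ((d : ℝ) - ρ / r + 5 * κ) := by
        gcongr with j hj
        exact hone j hj
    _ = 1 + J * (A * (H : ℝ) ^ ((d : ℝ) - ρ / r + 5 * κ)) := by
        rw [Finset.sum_const, Finset.card_range, nsmul_eq_mul]
    _ ≤ 1 * (H : ℝ) ^ ((d : ℝ) - ρ / r + 5 * κ + ε) +
          ((1 + 1 / (ε * Real.log 2)) * (H : ℝ) ^ ε) *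
            (A * (H : ℝ) ^ ((d : ℝ) - ρ / r + 5 * κ)) := by
        gcongr
        linarith
    _ = (1 + A * (1 + 1 / (ε * Real.log 2))) * (H : ℝ) ^ ((d : ℝ) - ρ / r + 5 * κ + ε) := by
        rw [Real.rpow_add hm0 ((d : ℝ) - ρ / r + 5 * κ)]
        ring

/-- **Theorem.** Let `F` be a family of Weierstrass equations in `d ≥ 1` parameters with `r ≥ 1`
sections whose height pairing over the function field is nondegenerate, `0 ≤ ρ ≤ 1`, `κ ≥ 0` and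
`θ < 1`, and let `f k` be positive functions on `(a, ∞)`, `a ≥ 0`, such that `f k x / x` is
nondecreasing and such that for each `x > a` the sequence `f k x` has exponent of convergence at
most `τ`. For all real vectors `u` with `‖u‖ > a` outside a set of Hausdorff dimension at most
`(d - ρ / r + 5 κ + τ) / (1 - θ)`, all `c` and all but finitely many `k`, for ALL marked integral
vectors `z` with `|z i - (f k ‖u‖ / ‖u‖) u i| ≤ c (f k ‖u‖) ^ θ` and ALL primes `p` with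
`5 ≤ p ≤ (f k ‖u‖) ^ κ` at which the curve is ordinary, the `p`-adic regulator of the `r` marked
points, and if the rank is `r` also the `p`-adic regulator of the curve, has norm greater than
`1 / ⌊‖z‖ ^ ρ⌋`. -/
theorem result {d r : ℕ} (F : Family d r) (hd : 0 < d) (hr : 0 < r) (hK : F.K.det ≠ 0)
    (ρ κ : ℝ) (hρ : 0 ≤ ρ) (hρ1 : ρ ≤ 1) (hκ : 0 ≤ κ)
    (a τ θ : ℝ) (ha : 0 ≤ a) (f : ℕ → ℝ → ℝ)
    (hf : ∀ k : ℕ, ∀ x y : ℝ, a < x → x ≤ y → 0 < f k x ∧ f k x / x ≤ f k y / y)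
    (hτ : 0 ≤ τ) (hv : ∀ x : ℝ, a < x → ∀ t : ℝ, τ < t → Summable fun k : ℕ => (f k x) ^ (-t))
    (hθ : θ < 1) :
    ∃ E : Set (Fin d → ℝ), dimH E ≤ ENNReal.ofReal (((d : ℝ) - ρ / r + 5 * κ + τ) / (1 - θ)) ∧
      ∀ u : Fin d → ℝ, a < ‖u‖ → u ∉ E → ∀ c : ℝ, ∃ k₀ : ℕ, ∀ k : ℕ, k₀ ≤ k → ∀ z : Fin d → ℤ,
        (∀ i, |(z i : ℝ) - f k ‖u‖ / ‖u‖ * u i| ≤ c * (f k ‖u‖) ^ θ) → F.Marked z →
        ∀ (p : ℕ) (_ : Fact p.Prime), 5 ≤ p → (p : ℝ) ≤ (f k ‖u‖) ^ κ →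
          IsOrdinaryW p (F.curve z) →
          Large F p ⌊‖(fun i => (z i : ℝ) : Fin d → ℝ)‖ ^ ρ⌋₊ z := by
  classical
  have hr0 : (0 : ℝ) < r := by exact_mod_cast hr
  have hr1 : (1 : ℝ) ≤ r := by exact_mod_cast hr
  have hd1 : (1 : ℝ) ≤ d := by exact_mod_cast hd
  have he0 : 0 ≤ (d : ℝ) - ρ / r + 5 * κ := by
    have : ρ / r ≤ 1 := (div_le_one hr0).2 (hρ1.trans hr1)
    linarith
  obtain ⟨E, hE, h⟩ := vec_prop (ι := Fin d) (Bad F ρ κ) (by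
      rintro z X Y hXY ⟨h0, h1, p, hp, h5, h6, h7⟩
      exact ⟨h0.trans hXY, h1, p, hp, h5, h6.trans (Real.rpow_le_rpow h0 hXY hκ), h7⟩)
    (s := (d : ℝ) - ρ / r + 5 * κ) he0 (fun ε hε => bad_card F hd hr hK hρ hρ1 hκ ε hε)
    f a τ θ ⟨ha, hf⟩ hτ hv hθ
  refine ⟨E, hE, fun u hu huE c => ?_⟩
  obtain ⟨k₀, hk₀⟩ := h u hu huE c
  refine ⟨k₀, fun k hk z hz hM p hp h5 h6 ho => ?_⟩
  by_contra hcon
  exact hk₀ k hk z hz ⟨(hf k _ _ hu le_rfl).1.le, hM, p, hp, h5, h6, ho, hcon⟩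

end Pool.Agent.Results.MP_3550b5_nt.StarshapedRegulators
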